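import Pool.Agent.N567.MD.MainT

/-!
# The Abel-Jacobi map on algebraically trivial cycles, and products with divisors

Let `𝒱` be the class of all smooth projective varieties over the algebraic numbers (or another class
closed under products with the properties below), with Chow groups `C` with rational coefficients, a
Weil cohomology `H` and the kernels `N X j` of the Abel-Jacobi maps.

It is conjectured that the Abel-Jacobi maps are injective on the homologically trivial cycles. For the
algebraically trivial cycles (which contain the zero-cycles of degree zero) it is shown that this is
equivalent to the vanishing of the intersection products of homologically trivial divisors with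
homologically trivial cycles, and to the statement that homologically trivial correspondences from
curves act as zero on the Jacobians. No standard conjecture is used.
-/

set_option autoImplicit false

universe u v w

namespace Pool.Agent.Results.MP_537ea0_ag.AlgebraicallyTrivialCycles

open Pool.Agent.H914 Pool.Agent.N164.Prim Pool.Agent.N567.Mid
open Pool.Agent.W492.BB (TheoryData WeilTheoryData)

/-- Let `N X j` be the kernels of the Abel-Jacobi maps. The following are equivalent:

* the Abel-Jacobi maps are injective on algebraically trivial classes;
* the product of a homologically trivial divisor class and a homologically trivial class is zero;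
* the product of an algebraically trivial class and a homologically trivial class is zero;
* homologically trivial correspondences from curves to varieties `X` act as zero on the divisor
  classes of degree zero;
* homologically trivial self-correspondences of degree zero act as zero on algebraically trivial
  classes;
* correspondences which act as zero on `H^(2j-1)(X)` act as zero on the algebraically trivial
  classes in `CH^j(X)`. -/
theorem result {k : Type u} [Field k] {𝒱 : VarClass k} {C : TheoryData.{u, v, 0} 𝒱 ℚ}
    [IsChowTheory C] {K : Type w} [Field K] {H : WeilTheoryData.{u, v, w} C K} [IsWeilTheory H]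
    {N : ∀ X : 𝒱.Obj, ℕ → Sub C X} (hN : IsAbelJacobiKernel H N) (hL : HasLefschetzCurves H)
    (hR : IsReducible H N) :
    List.TFAE [∀ (X : 𝒱.Obj) (j : ℕ) (z : C.A X), AlgTriv H X j z → Mem (N X j) z →
        z = zero C X,
      ∀ (X : 𝒱.Obj) (j : ℕ) (z w : C.A X), HomTriv H 1 z → HomTriv H j w →
        C.mul z w = zero C X,
      ∀ (X : 𝒱.Obj) (i j : ℕ) (z w : C.A X), AlgTriv H X i z → HomTriv H j w →
        C.mul z w = zero C X,
      ∀ (T X : 𝒱.Obj) (j : ℕ) (Γ : Cor C T X), T.dim = 1 → HomTriv H j Γ →
        ∀ y : C.A T, HomTriv H 1 y → C.act Γ y = zero C X,
      ∀ (X : 𝒱.Obj) (j : ℕ) (Γ : Cor C X X), HomTriv H X.dim Γ →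
        ∀ z : C.A X, AlgTriv H X j z → C.act Γ z = zero C X,
      ∀ (X Y : 𝒱.Obj) (j i : ℕ) (Γ : Cor C X Y), Maps C Γ j i →
        Kills H Γ (2 * j - 1) → ∀ z : C.A X, AlgTriv H X j z → C.act Γ z = zero C Y] :=
  mainT inferInstance inferInstance hN hL hR

end Pool.Agent.Results.MP_537ea0_ag.AlgebraicallyTrivialCycles
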