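import Pool.Agent.N882.UE.InjReg
import Pool.Agent.Q193.LT.Prime

/-!
# Abel-Jacobi maps over `ℚ̄` and the `K_1` of smooth cubics

Let `T X i j` be the map `H^i_M(X ⊗ ℚ̄, ℚ(j)) → H^i_H(X_ℂ, ℚ(j))` from motivic cohomology to absolute Hodge
cohomology for a smooth scheme `X` over `ℚ` (every smooth variety over `ℚ̄` is a component of `X ⊗ ℚ̄` for
such an `X`). The Abel-Jacobi maps of all smooth quasi-projective varieties over `ℚ̄` are injective iff the
maps from `CH^j(X, 1)` are injective for the smooth cubics `X : ∑ z_l f_l(x) = 1`, iff the maps from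
`CH^j(U, 2)` are injective for their complements `U` in the affine spaces.
-/

set_option autoImplicit false

open AlgebraicGeometry

namespace Pool.Agent.Results.MP_537ea0_ag.SmoothCubics

open Pool.Agent.Y116.UV Pool.Agent.N882.UE

theorem result {T : Sch ℚ → ℤ → ℤ → AbMap} (hT : IsClass T) :
    [∀ X : Sch ℚ, FT True X → Smooth X.hom → ∀ j, (T X (2 * j) j).Inj,
      ∀ (n m : ℕ) (f : Fin m → MvPolynomial (Fin n) ℚ), Good f →
        ∀ j, (T (cub f) (2 * j - 1) j).Inj,
      ∀ (n m : ℕ) (f : Fin m → MvPolynomial (Fin n) ℚ), Good f →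
        ∀ j, (T (cubC f) (2 * j - 2) j).Inj].TFAE :=
  inj_tfae hT (quad_presents (short_frac Pool.Agent.Q193.LT.frac_rat))

end Pool.Agent.Results.MP_537ea0_ag.SmoothCubics
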